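import Pool.Agent.H91.GEO.No2
import Pool.Agent.H66.GEO.YS
import Pool.Agent.H66.GEO.On
import Pool.Agent.H66.GEO.END

/-!
# GEO, module Mn1: the choice of the point `p`, of the sign and of the chart `I`

`md`: an infinite set `J` of levels with one sign `e`, a point `g = e G 0 T` (`T` a limit of the crossing points, `re T = log r`), the inverse chart `I = ψ 0 ∘ (e G 0)⁻¹` on `ball g (3 ρ)`.
`md_on`: the situation `ON` of section 5 for all large `s ∈ J`.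
-/

set_option autoImplicit false

open Filter Topology Metric Set

namespace Pool.Agent.H66.GEO

variable {Q : Set ℂ} {Lf : Set ℂ → (ℂ → ℂ) → (ℂ → ℂ) → Prop} {th r : ℝ} {φ F : ℕ → ℂ → ℂ} {ω α : ℕ → ℂ} {ψ G : ℕ → ℂ → ℂ}

private theorem per_int {a b : ℝ} {K : ℂ → ℂ} {c : ℂ} (h : ∀ t ∈ St a b, K (t + 2 * Real.pi * Complex.I) = K t + c) (m : ℤ) :
    ∀ t ∈ St a b, K (t + 2 * Real.pi * Complex.I * m) = K t + m * c := by
  have key : ∀ (n : ℕ), ∀ t ∈ St a b, K (t + 2 * Real.pi * Complex.I * (n : ℂ)) = K t + n * c := by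
    intro n
    induction n with
    | zero => intro t _; simp
    | succ n ih =>
      intro t ht
      have h1 : t + 2 * Real.pi * Complex.I * ((n + 1 : ℕ) : ℂ) =
          (t + 2 * Real.pi * Complex.I * (n : ℂ)) + 2 * Real.pi * Complex.I := by
        push_cast
        ring
      rw [h1, h _ ((st_tr (c := 2 * Real.pi * Complex.I * (n : ℂ)) (by simp)).2 ht), ih t ht]
      push_cast
      ring
  intro t ht
  rcases Int.eq_nat_or_neg m with ⟨n, rfl | rfl⟩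
  · exact_mod_cast key n t ht
  · have h1 := key n (t + 2 * Real.pi * Complex.I * ((-(n : ℤ) : ℤ) : ℂ)) ((st_per _).2 ht)
    have h2 : t + 2 * Real.pi * Complex.I * ((-(n : ℤ) : ℤ) : ℂ) + 2 * Real.pi * Complex.I * (n : ℂ) = t := by
      push_cast
      ring
    rw [h2] at h1
    rw [h1]
    push_cast
    ring

private theorem lr_mem (hX : XS Q Lf th r φ F ω α) {s : ℕ} {t : ℂ} (ht : t.re = Real.log r / 2 ^ s) : t ∈ Ss th s := by
  rw [ss_mem, ht]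
  have h1 : Real.log th < Real.log r := Real.log_lt_log hX.th0 hX.thr
  have h2 : Real.log r < 0 := Real.log_neg (hX.th0.trans hX.thr) hX.r1
  exact ⟨by gcongr, div_neg_of_neg_of_pos h2 (by positivity)⟩

private theorem g0_one (p0 : ∀ t ∈ Ss th 0, G 0 (t + Real.pi * Complex.I) = G 0 t + 1 / 2) :
    ∀ t ∈ Ss th 0, G 0 (t + 2 * Real.pi * Complex.I) = G 0 t + 1 := by
  intro t ht
  have := g0_per p0 1 t ht
  simpa using this

/-- normalised crossing points -/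
private theorem lkn (hG : GG Lf th r ψ G)
    (g0 : ∀ t ∈ Ss th 0, G 0 (t + 2 * Real.pi * Complex.I) = G 0 t + 1) {s : ℕ} {e : ℝ} (he : e = 1 ∨ e = -1)
    (gs : ∀ t ∈ Ss th (s + 1), G (s + 1) (t + 2 * Real.pi * Complex.I) = G (s + 1) t + e) :
    ∃ t t' : ℂ, t.re = Real.log r ∧ 0 ≤ t.im ∧ t.im ≤ 2 * Real.pi ∧ t'.re = Real.log r / 2 ^ (s + 1) ∧
      G 0 t = G (s + 1) t' := by
  obtain ⟨t, ht, t', ht', h1, h2, -, h4⟩ := hG.lk s
  have hpi : 0 < 2 * Real.pi := by positivity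
  obtain ⟨m, hm⟩ : ∃ m : ℤ, (m : ℂ) * e = ((-⌊t.im / (2 * Real.pi)⌋ : ℤ) : ℂ) := by
    rcases he with rfl | rfl
    · exact ⟨-⌊t.im / (2 * Real.pi)⌋, by push_cast; ring⟩
    · exact ⟨⌊t.im / (2 * Real.pi)⌋, by push_cast; ring⟩
  have e1 : (t + 2 * Real.pi * Complex.I * ((-⌊t.im / (2 * Real.pi)⌋ : ℤ) : ℂ)).im =
      t.im - 2 * Real.pi * ⌊t.im / (2 * Real.pi)⌋ := by
    have : (t + 2 * Real.pi * Complex.I * ((-⌊t.im / (2 * Real.pi)⌋ : ℤ) : ℂ)) =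
        t + ((-(2 * Real.pi * ⌊t.im / (2 * Real.pi)⌋) : ℝ) : ℂ) * Complex.I := by
      push_cast
      ring
    rw [this]
    simp
    ring
  have f1 : (⌊t.im / (2 * Real.pi)⌋ : ℝ) ≤ t.im / (2 * Real.pi) := Int.floor_le _
  have f2 : t.im / (2 * Real.pi) < (⌊t.im / (2 * Real.pi)⌋ : ℝ) + 1 := Int.lt_floor_add_one _
  rw [le_div_iff₀ hpi] at f1
  rw [div_lt_iff₀ hpi] at f2
  refine ⟨t + 2 * Real.pi * Complex.I * ((-⌊t.im / (2 * Real.pi)⌋ : ℤ) : ℂ), t' + 2 * Real.pi * Complex.I * m, ?_, ?_, ?_, ?_, ?_⟩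
  · rw [Complex.add_re, h1]
    simp
  · rw [e1]
    linarith
  · rw [e1]
    linarith
  · rw [Complex.add_re, h2]
    simp
  · rw [per_int g0 _ t ht, per_int gs m t' ht', hm, h4]
    ring

/-- the local inverse -/
private theorem linv {S : Set ℂ} (hS : IsOpen S) {f : ℂ → ℂ} (hf : DifferentiableOn ℂ f S) (hd : ∀ t ∈ S, deriv f t ≠ 0)
    {T : ℂ} (hT : T ∈ S) : ∃ (ρ : ℝ) (k : ℂ → ℂ), 0 < ρ ∧ DifferentiableOn ℂ k (ball (f T) (3 * ρ)) ∧
      ∀ x ∈ ball (f T) (3 * ρ), k x ∈ S ∧ ‖k x - T‖ < 1 ∧ f (k x) = x ∧ deriv k x ≠ 0 := by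
  have h1 : HasStrictDerivAt f (deriv f T) T := (hf.analyticAt (hS.mem_nhds hT)).hasStrictDerivAt
  have h2 := h1.hasStrictFDerivAt_equiv (hd T hT)
  set Φ := h2.toOpenPartialHomeomorph f with hΦ
  have hΦf : ∀ x, Φ x = f x := fun x => rfl
  have hU : Φ.source ∩ (S ∩ ball T 1) ∈ 𝓝 T :=
    inter_mem (Φ.open_source.mem_nhds h2.mem_toOpenPartialHomeomorph_source)
      (inter_mem (hS.mem_nhds hT) (ball_mem_nhds T one_pos))
  have h3 : f '' (Φ.source ∩ (S ∩ ball T 1)) ∈ 𝓝 (f T) := by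
    rw [← h1.map_nhds_eq (hd T hT)]
    exact image_mem_map hU
  obtain ⟨ε, hε, h4⟩ := Metric.mem_nhds_iff.1 h3
  have h5 : ∀ x ∈ ball (f T) (3 * (ε / 3)), Φ.symm x ∈ S ∧ ‖Φ.symm x - T‖ < 1 ∧ f (Φ.symm x) = x ∧ x ∈ Φ.target := by
    intro x hx
    rw [mul_div_cancel₀ ε (by norm_num : (3 : ℝ) ≠ 0)] at hx
    obtain ⟨u, ⟨u1, u2, u3⟩, u4⟩ := h4 hx
    have e1 : Φ.symm x = u := by
      rw [← u4, ← hΦf u, Φ.left_inv u1]
    have e2 : x ∈ Φ.target := by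
      rw [← u4, ← hΦf u]
      exact Φ.map_source u1
    rw [e1]
    rw [mem_ball, dist_eq_norm] at u3
    exact ⟨u2, u3, u4, e2⟩
  have h6 : ∀ x ∈ ball (f T) (3 * (ε / 3)), HasDerivAt Φ.symm (deriv f (Φ.symm x))⁻¹ x := by
    intro x hx
    obtain ⟨f1, -, -, f4⟩ := h5 x hx
    exact Φ.hasDerivAt_symm f4 (hd _ f1) ((hf.differentiableAt (hS.mem_nhds f1)).hasDerivAt)
  refine ⟨ε / 3, Φ.symm, by positivity, fun x hx => (h6 x hx).differentiableAt.differentiableWithinAt, fun x hx => ?_⟩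
  obtain ⟨f1, f2, f3, -⟩ := h5 x hx
  refine ⟨f1, f2, f3, ?_⟩
  rw [(h6 x hx).deriv]
  exact inv_ne_zero (hd _ f1)

/-- the data of section 5 -/
structure MD (Q : Set ℂ) (Lf : Set ℂ → (ℂ → ℂ) → (ℂ → ℂ) → Prop) (th r : ℝ) (ψ G : ℕ → ℂ → ℂ) (e : ℝ) (J : Set ℕ) (b : ℕ → ℂ)
    (g : ℂ) (ρ : ℝ) (I : ℂ → ℂ) : Prop where
  e1 : e = 1 ∨ e = -1
  inf : J.Infinite
  hb : ∀ s ∈ J, ∀ t ∈ Ss th s, G 0 (2 ^ s * t) = e * 2 ^ s * G s t + b s
  ρ0 : 0 < ρ
  li : Lf (ball g (3 * ρ)) I (fun x => e * x)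
  iI : InjOn I (ball g (3 * ρ))
  hp : ∀ ε : ℝ, 0 < ε → ∃ s0, ∀ s ∈ J, s0 ≤ s → ∃ t : ℂ, t.re = Real.log r / 2 ^ s ∧ ‖e * G s t - g‖ < ε

theorem md_ex (h : LS Q Lf) (hX : XS Q Lf th r φ F ω α) (hP : PS th φ F ω α ψ) (hG : GG Lf th r ψ G)
    (p0 : ∀ t ∈ Ss th 0, G 0 (t + Real.pi * Complex.I) = G 0 t + 1 / 2) :
    ∃ (e : ℝ) (J : Set ℕ) (b : ℕ → ℂ) (g : ℂ) (ρ : ℝ) (I : ℂ → ℂ), MD Q Lf th r ψ G e J b g ρ I := by
  have hno : ∀ s, ∃ (e : ℝ) (b : ℂ), (e = 1 ∨ e = -1) ∧ (∀ t ∈ Ss th s, G 0 (2 ^ s * t) = e * 2 ^ s * G s t + b) ∧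
      ∀ t ∈ Ss th s, G s (t + 2 * Real.pi * Complex.I) = G s t + e := by
    intro s
    obtain ⟨e, b, h1, h2⟩ := no h hX hP hG p0 s
    refine ⟨e, b, h1, h2, fun t ht => ?_⟩
    have h3 := no_per hG p0 h1 h2 t ht
    rcases h1 with rfl | rfl
    · push_cast at h3 ⊢
      linear_combination h3
    · push_cast at h3 ⊢
      linear_combination -h3
  choose e b he hb hper using hno
  have g0 := g0_one p0
  have hlk := fun s => lkn hG g0 (he (s + 1)) (hper (s + 1))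
  choose T T' T1 T2 T3 T4 T5 using hlk
  -- a convergent subsequence
  have hcpt : IsCompact (((fun y : ℝ => (Real.log r : ℂ) + y * Complex.I) '' Icc 0 (2 * Real.pi)) ×ˢ ({1, -1} : Set ℝ)) :=
    (isCompact_Icc.image (by fun_prop)).prod (Set.toFinite _).isCompact
  have hmem : ∀ s, (T s, e (s + 1)) ∈ (((fun y : ℝ => (Real.log r : ℂ) + y * Complex.I) '' Icc 0 (2 * Real.pi)) ×ˢ ({1, -1} : Set ℝ)) := by
    intro s
    refine ⟨⟨(T s).im, ⟨T2 s, T3 s⟩, ?_⟩, he (s + 1)⟩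
    show (Real.log r : ℂ) + ((T s).im : ℂ) * Complex.I = T s
    rw [← T1 s]
    exact Complex.re_add_im _
  obtain ⟨⟨T0, e0⟩, ⟨⟨y, hy, hy0⟩, he0⟩, sub, hsub, hlim⟩ := hcpt.tendsto_subseq hmem
  have hlim1 : Tendsto (fun n => T (sub n)) atTop (𝓝 T0) := (continuous_fst.tendsto _).comp hlim
  have hlim2 : Tendsto (fun n => e (sub n + 1)) atTop (𝓝 e0) := (continuous_snd.tendsto _).comp hlim
  have he0' : e0 = 1 ∨ e0 = -1 := he0
  have hT0 : T0.re = Real.log r := by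
    have : (Real.log r : ℂ) + (y : ℂ) * Complex.I = T0 := hy0
    rw [← this]
    simp
  have hT0S : T0 ∈ Ss th 0 := lr_mem hX (by rw [hT0, pow_zero, div_one])
  obtain ⟨n0, hn0⟩ : ∃ n0, ∀ n ≥ n0, e (sub n + 1) = e0 := by
    obtain ⟨n0, h1⟩ := eventually_atTop.1 (hlim2.eventually (Metric.ball_mem_nhds e0 one_pos))
    refine ⟨n0, fun n hn => ?_⟩
    have h2 := h1 n hn
    rw [Real.dist_eq] at h2
    rcases he (sub n + 1) with h3 | h3 <;> rcases he0' with h4 | h4 <;> rw [h3, h4] at h2 ⊢ <;> norm_num at h2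
  have hee : (e0 : ℂ) * e0 = 1 := by
    rcases he0' with h4 | h4 <;> rw [h4] <;> norm_num
  have hene : (e0 : ℂ) ≠ 0 := fun h0 => by
    rw [h0, zero_mul] at hee
    exact zero_ne_one hee
  -- the local inverse
  have hd0 := h.dG (hG.lf 0)
  obtain ⟨ρ, k, hρ, dk, hk⟩ := linv (st_open (Real.log th / 2 ^ 0) 0) (f := fun t => (e0 : ℂ) * G 0 t) (hd0.1.const_mul _)
    (fun t ht => by
      rw [deriv_const_mul_field]
      exact mul_ne_zero hene (hd0.2 t ht)) hT0S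
  have hkG : ∀ x ∈ ball ((e0 : ℂ) * G 0 T0) (3 * ρ), (e0 : ℂ) * x = G 0 (k x) := by
    intro x hx
    have h1 := (hk x hx).2.2.1
    rw [← h1, ← mul_assoc, hee, one_mul]
    rw [h1]
  have hli : Lf (ball ((e0 : ℂ) * G 0 T0) (3 * ρ)) (fun x => ψ 0 (k x)) (fun x => (e0 : ℂ) * x) :=
    h.sub (hG.lf 0) _ k _ _ isOpen_ball (convex_ball _ _) dk fun x hx => ⟨(hk x hx).1, (hk x hx).2.2.2, rfl, hkG x hx⟩
  refine ⟨e0, {s | ∃ n, n0 ≤ n ∧ s = sub n + 1}, b, (e0 : ℂ) * G 0 T0, ρ, fun x => ψ 0 (k x), he0', ?_, ?_, hρ, hli, ?_, ?_⟩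
  · -- infinite
    have h1 : (Set.range fun n => sub (n0 + n) + 1) ⊆ {s | ∃ n, n0 ≤ n ∧ s = sub n + 1} := by
      rintro _ ⟨n, rfl⟩
      exact ⟨n0 + n, Nat.le_add_right _ _, rfl⟩
    refine (Set.infinite_range_of_injective ?_).mono h1
    intro n m hnm
    have h2 : sub (n0 + n) = sub (n0 + m) := Nat.succ_injective hnm
    exact Nat.add_left_cancel (hsub.injective h2)
  · rintro s ⟨n, hn, rfl⟩ t ht
    rw [hb (sub n + 1) t ht, hn0 n hn]
  · -- injective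
    intro x hx x' hx' hxx
    obtain ⟨m, hm⟩ := hP.inj 0 _ (hk x hx).1 _ (hk x' hx').1 hxx
    have h1 : ‖(2 * Real.pi * Complex.I * m : ℂ)‖ < 2 := by
      have h2 : (2 * Real.pi * Complex.I * m : ℂ) = (k x' - T0) - (k x - T0) := by
        rw [hm]
        ring
      rw [h2]
      calc _ ≤ ‖k x' - T0‖ + ‖k x - T0‖ := norm_sub_le _ _
        _ < 2 := by linarith [(hk x hx).2.1, (hk x' hx').2.1]
    have h3 : m = 0 := by
      by_contra h0
      have h4 : (1 : ℝ) ≤ |(m : ℝ)| := by exact_mod_cast Int.one_le_abs h0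
      have h5 : ‖(2 * Real.pi * Complex.I * m : ℂ)‖ = 2 * Real.pi * |(m : ℝ)| := by
        rw [norm_mul, norm_mul, norm_mul, Complex.norm_I, Complex.norm_real, Complex.norm_intCast, Real.norm_eq_abs,
          abs_of_pos Real.pi_pos]
        simp
      rw [h5] at h1
      have := Real.pi_gt_three
      nlinarith
    rw [h3] at hm
    have h6 : k x' = k x := by rw [hm]; simp
    rw [← (hk x hx).2.2.1, ← (hk x' hx').2.2.1, h6]
  · intro ε hε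
    have hc : Tendsto (fun n => (e0 : ℂ) * G 0 (T (sub n))) atTop (𝓝 ((e0 : ℂ) * G 0 T0)) :=
      ((hd0.1.differentiableAt ((st_open _ _).mem_nhds hT0S)).continuousAt.tendsto.comp hlim1).const_mul _
    obtain ⟨N, hN⟩ := eventually_atTop.1 (hc.eventually (Metric.ball_mem_nhds _ hε))
    refine ⟨sub N + 1, ?_⟩
    rintro s ⟨n, hn, rfl⟩ hs
    have h1 : N ≤ n := hsub.le_iff_le.1 (Nat.succ_le_succ_iff.1 hs)
    refine ⟨T' (sub n), T4 (sub n), ?_⟩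
    rw [← T5 (sub n), ← dist_eq_norm]
    exact hN n h1

private theorem im_bd (h : LS Q Lf) (hX : XS Q Lf th r φ F ω α) (hG : GG Lf th r ψ G)
    (g0 : ∀ t ∈ Ss th 0, G 0 (t + 2 * Real.pi * Complex.I) = G 0 t + 1) :
    ∃ C : ℝ, ∀ u : ℂ, u.re = Real.log r → |(G 0 u).im| ≤ C := by
  have hpi : 0 < 2 * Real.pi := by positivity
  have hmem : ∀ u : ℂ, u.re = Real.log r → u ∈ Ss th 0 := fun u hu => lr_mem hX (by rw [hu, pow_zero, div_one])
  have hc : IsCompact ((fun y : ℝ => (Real.log r : ℂ) + y * Complex.I) '' Icc 0 (2 * Real.pi)) :=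
    isCompact_Icc.image (by fun_prop)
  obtain ⟨C, hC⟩ := hc.exists_bound_of_continuousOn (f := G 0) ((h.dG (hG.lf 0)).1.continuousOn.mono (by
    rintro _ ⟨y, -, rfl⟩
    exact hmem _ (by simp)))
  refine ⟨C, fun u hu => ?_⟩
  have e1 : (u + 2 * Real.pi * Complex.I * ((-⌊u.im / (2 * Real.pi)⌋ : ℤ) : ℂ)) =
      (Real.log r : ℂ) + ((u.im - 2 * Real.pi * ⌊u.im / (2 * Real.pi)⌋ : ℝ) : ℂ) * Complex.I := by
    apply Complex.ext
    · simp [hu]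
    · simp
      ring
  have f1 : (⌊u.im / (2 * Real.pi)⌋ : ℝ) ≤ u.im / (2 * Real.pi) := Int.floor_le _
  have f2 : u.im / (2 * Real.pi) < (⌊u.im / (2 * Real.pi)⌋ : ℝ) + 1 := Int.lt_floor_add_one _
  rw [le_div_iff₀ hpi] at f1
  rw [div_lt_iff₀ hpi] at f2
  have h1 := hC _ ⟨u.im - 2 * Real.pi * ⌊u.im / (2 * Real.pi)⌋, ⟨by linarith, by linarith⟩, rfl⟩
  have h2 := per_int g0 (-⌊u.im / (2 * Real.pi)⌋) u (hmem u hu)
  rw [e1] at h2
  have h3 := (Complex.abs_im_le_norm _).trans h1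
  rw [h2] at h3
  have h4 : (G 0 u + ((-⌊u.im / (2 * Real.pi)⌋ : ℤ) : ℂ) * 1).im = (G 0 u).im := by
    rw [mul_one, Complex.add_im, Complex.intCast_im, add_zero]
  rwa [h4] at h3

theorem md_on (h : LS Q Lf) (hX : XS Q Lf th r φ F ω α) (hP : PS th φ F ω α ψ) (hG : GG Lf th r ψ G)
    (p0 : ∀ t ∈ Ss th 0, G 0 (t + Real.pi * Complex.I) = G 0 t + 1 / 2) {e : ℝ} {J : Set ℕ} {b : ℕ → ℂ} {g : ℂ} {ρ : ℝ}
    {I : ℂ → ℂ} (D : MD Q Lf th r ψ G e J b g ρ I) :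
    ∃ s0 : ℕ, ∀ s ∈ J, s0 ≤ s → ON Q (fun S H K => Lf S H (fun u => e * K u)) (Real.log th / 2 ^ s) (Real.log r / 2 ^ s) (ψ s)
      (fun t => e * G s t) (Ys φ ω α r s) g ρ I := by
  have hee : (e : ℂ) * e = 1 := by
    rcases D.e1 with h4 | h4 <;> rw [h4] <;> norm_num
  have hene : (e : ℂ) ≠ 0 := fun h0 => by
    rw [h0, zero_mul] at hee
    exact zero_ne_one hee
  have g0 := g0_one p0
  obtain ⟨C, hC⟩ := im_bd h hX hG g0
  obtain ⟨s1, hs1⟩ := D.hp (ρ / 4) (by linarith [D.ρ0])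
  obtain ⟨s2, hs2⟩ : ∃ s2 : ℕ, ∀ s ≥ s2, 2 * C / 2 ^ s ≤ ρ / 4 := by
    have h1 : Tendsto (fun s : ℕ => 2 * C / (2 : ℝ) ^ s) atTop (𝓝 0) :=
      tendsto_const_nhds.div_atTop (tendsto_pow_atTop_atTop_of_one_lt one_lt_two)
    exact eventually_atTop.1 (h1.eventually (ge_mem_nhds (by linarith [D.ρ0])))
  have hl1 : Real.log th < Real.log r := Real.log_lt_log hX.th0 hX.thr
  have hl2 : Real.log r < 0 := Real.log_neg (hX.th0.trans hX.thr) hX.r1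
  refine ⟨max s1 s2, fun s hs hsm => ?_⟩
  have h2s : (0 : ℝ) < 2 ^ s := by positivity
  obtain ⟨t0, ht0, ht0'⟩ := hs1 s hs ((le_max_left _ _).trans hsm)
  -- the height
  have him : ∀ t : ℂ, t.re = Real.log r / 2 ^ s → |2 ^ s * ((e : ℂ) * G s t).im + (b s).im| ≤ C := by
    intro t ht
    have e1 := D.hb s hs t (lr_mem hX ht)
    have e2 : ((2 : ℂ) ^ s * t).re = Real.log r := by
      have : ((2 : ℂ) ^ s) = ((2 ^ s : ℝ) : ℂ) := by push_cast; rfl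
      rw [this, Complex.re_ofReal_mul, ht]
      field_simp
    have e3 := hC _ e2
    rw [e1] at e3
    have e4 : ((e : ℂ) * 2 ^ s * G s t + b s).im = 2 ^ s * ((e : ℂ) * G s t).im + (b s).im := by
      have : (e : ℂ) * 2 ^ s * G s t = ((2 ^ s : ℝ) : ℂ) * ((e : ℂ) * G s t) := by
        push_cast
        ring
      rw [this, Complex.add_im, Complex.im_ofReal_mul]
    rwa [e4] at e3
  refine
    { ls := ls_sc h hene
      h1 := by gcongr
      h2 := div_neg_of_neg_of_pos hl2 h2s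
      lf := ?_
      one := no_per hG p0 D.e1 (D.hb s hs)
      per := ps_pi2 hP s
      inj := hP.inj s
      Yo := ys_open hX s
      fr := ys_fr hX hP s
      ins := fun t a1 a2 => ys_in hX hP s a1 a2
      out := fun t a1 a2 => ys_out hX hP s a1 a2
      ρ0 := D.ρ0
      li := D.li
      iI := D.iI
      lk := ⟨t0, ht0, ?_⟩
      ht := ?_ }
  · have e1 : (fun u => (e : ℂ) * (fun t => (e : ℂ) * G s t) u) = G s := by
      funext u
      show (e : ℂ) * ((e : ℂ) * G s u) = G s u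
      rw [← mul_assoc, hee, one_mul]
    show Lf _ _ (fun u => (e : ℂ) * (fun t => (e : ℂ) * G s t) u)
    rw [e1]
    exact hG.lf s
  · rw [mem_ball, dist_eq_norm]
    linarith [D.ρ0]
  · intro t ht
    have a1 := him t ht
    have a2 := him t0 ht0
    have a3 := (Complex.abs_im_le_norm _).trans ht0'.le
    rw [Complex.sub_im] at a3
    have a4 := hs2 s ((le_max_right _ _).trans hsm)
    rw [div_le_iff₀ h2s] at a4
    rw [abs_le] at a1 a2 a3 ⊢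
    show -(ρ / 2) ≤ ((e : ℂ) * G s t).im - g.im ∧ ((e : ℂ) * G s t).im - g.im ≤ ρ / 2
    have a5 : ((e : ℂ) * G s t).im - ((e : ℂ) * G s t0).im ≤ ρ / 4 := by
      have : 2 ^ s * (((e : ℂ) * G s t).im - ((e : ℂ) * G s t0).im) ≤ 2 ^ s * (ρ / 4) := by
        nlinarith [a1.2, a2.1]
      exact le_of_mul_le_mul_left this h2s
    have a6 : ((e : ℂ) * G s t0).im - ((e : ℂ) * G s t).im ≤ ρ / 4 := by
      have : 2 ^ s * (((e : ℂ) * G s t0).im - ((e : ℂ) * G s t).im) ≤ 2 ^ s * (ρ / 4) := by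
        nlinarith [a1.1, a2.2]
      exact le_of_mul_le_mul_left this h2s
    constructor <;> linarith [a3.1, a3.2]

/-- **THEOREM GEO** from the claim of section 5 -/
theorem geo_of_claim (h : LS Q Lf) (hX : XS Q Lf th r φ F ω α) (hP : PS th φ F ω α ψ) (hG : GG Lf th r ψ G)
    (p0 : ∀ t ∈ Ss th 0, G 0 (t + Real.pi * Complex.I) = G 0 t + 1 / 2) {e : ℝ} {J : Set ℕ} {b : ℕ → ℂ} {g : ℂ} {ρ : ℝ}
    {I : ℂ → ℂ} (D : MD Q Lf th r ψ G e J b g ρ I)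
    (cl : ∃ s0 : ℕ, ∀ s ∈ J, s0 ≤ s → ∀ x ∈ ball g (2 * ρ),
      (∀ t : ℂ, t.re = Real.log r / 2 ^ s → ((e : ℂ) * G s t).im < x.im) → I x ∈ Ys φ ω α r s) : False := by
  have hee : (e : ℂ) * e = 1 := by
    rcases D.e1 with h4 | h4 <;> rw [h4] <;> norm_num
  have hsub : ball g (2 * ρ) ⊆ ball g (3 * ρ) := ball_subset_ball (by linarith [D.ρ0])
  obtain ⟨s0, hs0⟩ := cl
  refine geo_end hX hP (h.dG (hG.lf 0)).1 (h.dG (hG.lf 0)).2 p0 J D.inf e b D.hb g ρ D.ρ0 I ((h.dH D.li).1.mono hsub)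
    (fun s _ t ht hx => ?_) D.hp ⟨s0, fun s hs hs0' x hx hab => ys_sub s (hs0 s hs hs0' x hx hab)⟩
  exact (h.dis D.li (hG.lf s) _ (hsub hx) t ht (by rw [← mul_assoc, hee, one_mul])).1

end Pool.Agent.H66.GEO
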