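import Pool.Agent.H66.GEO.NO
import Pool.Agent.H66.GEO.Bas

/-!
# GEO, module No2: the normal form `c = 1`

`ls_sc`, `xs_sc`, `gg_sc`: the lift system `Lf' S H G := Lf S H (c * G)`, `c ≠ 0`. `no`, `no_one`, `no_per`: `no_all` for `c = 1`. `nrm`: reduction to the normal form.
-/

set_option autoImplicit false

open Filter Topology Metric Set

namespace Pool.Agent.H66.GEO

variable {Q : Set ℂ} {Lf : Set ℂ → (ℂ → ℂ) → (ℂ → ℂ) → Prop} {th r : ℝ} {φ F : ℕ → ℂ → ℂ} {ω α : ℕ → ℂ} {ψ G : ℕ → ℂ → ℂ}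

private theorem sc_mk {c : ℂ} (hc : c ≠ 0) {S : Set ℂ} {H G : ℂ → ℂ} (h : Lf S H G) :
    Lf S H (fun u => c * (fun u => c⁻¹ * G u) u) := by
  have h1 : (fun u => c * (fun u => c⁻¹ * G u) u) = G := by
    funext u
    show c * (c⁻¹ * G u) = G u
    rw [← mul_assoc, mul_inv_cancel₀ hc, one_mul]
  rwa [h1]

theorem ls_sc (h : LS Q Lf) {c : ℂ} (hc : c ≠ 0) : LS Q (fun S H G => Lf S H (fun u => c * G u)) where
  Qc := h.Qc
  Q0 := h.Q0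
  op := fun {S H G} hL => h.op (G := fun u => c * G u) hL
  dH := fun {S H G} hL => h.dH (G := fun u => c * G u) hL
  dG := by
    intro S H G hL
    obtain ⟨h1, h2⟩ := h.dG (G := fun u => c * G u) hL
    have h3 : DifferentiableOn ℂ G S := by
      have h4 := h1.const_mul c⁻¹
      refine h4.congr fun u _ => ?_
      rw [← mul_assoc, inv_mul_cancel₀ hc, one_mul]
    refine ⟨h3, fun u hu h0 => h2 u hu ?_⟩
    rw [deriv_const_mul_field, h0, mul_zero]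
  sub := by
    intro S H G hL S' k H' G' h1 h2 h3 h4
    refine h.sub hL S' k H' _ h1 h2 h3 fun u hu => ⟨(h4 u hu).1, (h4 u hu).2.1, (h4 u hu).2.2.1, ?_⟩
    rw [(h4 u hu).2.2.2]
  ext := by
    intro S H G hL S' H' u u' h1 h2 h3 h4 h5 h6 h7
    obtain ⟨G', g1, g2⟩ := h.ext hL S' H' u u' h1 h2 h3 h4 h5 h6 h7
    refine ⟨fun u => c⁻¹ * G' u, sc_mk hc g1, ?_⟩
    show c⁻¹ * G' u' = G u
    rw [g2, ← mul_assoc, inv_mul_cancel₀ hc, one_mul]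
  gal := by
    intro S H G G' h1 h2
    obtain ⟨a, b, ha, hab⟩ := h.gal h1 h2
    refine ⟨a, c⁻¹ * b, ha, fun u hu => mul_left_cancel₀ hc ?_⟩
    rw [hab u hu, mul_add, ← mul_assoc c c⁻¹ b, mul_inv_cancel₀ hc, one_mul]
    ring
  dis := by
    intro S S' H G H' G' h1 h2 u hu u' hu' he
    obtain ⟨h3, ε, h4, h5⟩ := h.dis h1 h2 u hu u' hu' (by rw [he])
    exact ⟨h3, ε, h4, fun v hv v' hv' f1 f2 f3 => mul_left_cancel₀ hc (h5 v hv v' hv' f1 f2 f3)⟩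
  typ := by
    intro φ G d h1 h2 h3 h4 h5 h6 h7 h8
    exact h.typ φ (fun u => c * G u) d h1 h2 h3 h4 h5 h6 h7 (fun t ht => by rw [h8 t ht])
  sym := by
    intro S H G G' h1 h2
    obtain ⟨a, b, ha, hab⟩ := h.sym h1 h2
    refine ⟨a, c⁻¹ * b, ha, fun u hu => mul_left_cancel₀ hc ?_⟩
    rw [hab u hu, mul_add, ← mul_assoc c c⁻¹ b, mul_inv_cancel₀ hc, one_mul]
    ring

theorem xs_sc (hX : XS Q Lf th r φ F ω α) {c : ℂ} (hc : c ≠ 0) :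
    XS Q (fun S H G => Lf S H (fun u => c * G u)) th r φ F ω α where
  th0 := hX.th0
  thr := hX.thr
  r1 := hX.r1
  dφ := hX.dφ
  iφ := hX.iφ
  oφ := hX.oφ
  bφ := hX.bφ
  hω := hX.hω
  hα := hX.hα
  cv := hX.cv
  dF := hX.dF
  rel := hX.rel
  off := hX.off
  pb := by
    intro s S H G' G h1 h2 h3
    obtain ⟨a, b, ha, hab⟩ := hX.pb s h1 h2 h3
    refine ⟨a, c⁻¹ * b, ha, fun u hu => mul_left_cancel₀ hc ?_⟩
    rw [hab u hu, mul_add, ← mul_assoc c c⁻¹ b, mul_inv_cancel₀ hc, one_mul]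
    ring
  cr := hX.cr
  ex := by
    obtain ⟨S, H, G, u, x, h1, h2, h3, h4, h5⟩ := hX.ex
    exact ⟨S, H, fun u => c⁻¹ * G u, u, x, sc_mk hc h1, h2, h3, h4, h5⟩
  F0 := hX.F0

theorem gg_sc (hG : GG Lf th r ψ G) {c : ℂ} (hc : c ≠ 0) :
    GG (fun S H G => Lf S H (fun u => c * G u)) th r ψ (fun s t => c⁻¹ * G s t) where
  lf := fun s => sc_mk hc (hG.lf s)
  lk := by
    intro s
    obtain ⟨t, ht, t', ht', h1, h2, h3, h4⟩ := hG.lk s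
    exact ⟨t, ht, t', ht', h1, h2, h3, by rw [h4]⟩
  ab := by
    intro s
    obtain ⟨a, b, ha, hab⟩ := hG.ab s
    refine ⟨a, c⁻¹ * b, ha, fun t ht => ?_⟩
    rw [hab t ht]
    ring

/-- `no_all` in the normal form -/
theorem no_nf (h : LS Q Lf) (hX : XS Q Lf th r φ F ω α) (hP : PS th φ F ω α ψ) (hG : GG Lf th r ψ G)
    (p0 : ∀ t ∈ Ss th 0, G 0 (t + Real.pi * Complex.I) = G 0 t + 1 / 2) :
    ((1, 1) : ℝ × ℂ) ∈ LO Lf (Ss th 0) (ψ 0) (G 0) ∧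
      (∀ g ∈ LO Lf (Ss th 0) (ψ 0) (G 0), |g.1| = 1) ∧
      (∀ ρ : ℝ, ((1, ρ) : ℝ × ℂ) ∈ LO Lf (Ss th 0) (ψ 0) (G 0) → ∃ m : ℤ, ρ = m) ∧
      ∀ s, ∃ (e : ℝ) (b : ℂ), (e = 1 ∨ e = -1) ∧ (∀ t ∈ Ss th s, G 0 (2 ^ s * t) = e * 2 ^ s * G s t + b) ∧
        (∀ t ∈ Ss th s, G s (t + 2 * Real.pi * Complex.I) = G s t + e) ∧
        (∀ t ∈ Ss th s, G s (t + 2 * Real.pi * Complex.I / 2 ^ s) = G s t + e / 2 ^ s) ∧
        (∀ t ∈ Ss th s, G s (t + Real.pi * Complex.I / 2 ^ s) = G s t + e / 2 ^ (s + 1)) := by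
  obtain ⟨c, -, h1, h2, h3, h4, h5⟩ := no_all h hX hP hG
  obtain ⟨t, ht⟩ := ss_ne hX.th0 (hX.thr.trans hX.r1) 0
  have hc : c = 1 := by
    have e1 := h2 t ht
    rw [p0 t ht] at e1
    have e2 := add_left_cancel e1
    linear_combination (-2) * e2
  subst hc
  refine ⟨h1, h3, fun ρ hρ => h4 ρ (by rwa [mul_one]), fun s => ?_⟩
  obtain ⟨e, b, f1, f2, f3, f4, f5⟩ := h5 s
  refine ⟨e, b, f1, f2, fun t ht => ?_, fun t ht => ?_, fun t ht => ?_⟩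
  · rw [f3 t ht, mul_one]
  · rw [f4 t ht, mul_one]
  · rw [f5 t ht, mul_one]

/-- the scale factors are `± 2^s` -/
theorem no (h : LS Q Lf) (hX : XS Q Lf th r φ F ω α) (hP : PS th φ F ω α ψ) (hG : GG Lf th r ψ G)
    (p0 : ∀ t ∈ Ss th 0, G 0 (t + Real.pi * Complex.I) = G 0 t + 1 / 2) (s : ℕ) :
    ∃ (e : ℝ) (b : ℂ), (e = 1 ∨ e = -1) ∧ ∀ t ∈ Ss th s, G 0 (2 ^ s * t) = e * 2 ^ s * G s t + b := by
  obtain ⟨e, b, h1, h2, -⟩ := (no_nf h hX hP hG p0).2.2.2 s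
  exact ⟨e, b, h1, h2⟩

theorem no_one (h : LS Q Lf) (hX : XS Q Lf th r φ F ω α) (hP : PS th φ F ω α ψ) (hG : GG Lf th r ψ G)
    (p0 : ∀ t ∈ Ss th 0, G 0 (t + Real.pi * Complex.I) = G 0 t + 1 / 2) :
    ((1, 1) : ℝ × ℂ) ∈ LO Lf (Ss th 0) (ψ 0) (G 0) :=
  (no_nf h hX hP hG p0).1

/-- the period of `G 0` over several turns -/
theorem g0_per (p0 : ∀ t ∈ Ss th 0, G 0 (t + Real.pi * Complex.I) = G 0 t + 1 / 2) (n : ℕ) :
    ∀ t ∈ Ss th 0, G 0 (t + 2 * Real.pi * Complex.I * n) = G 0 t + n := by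
  have h2 : ∀ t ∈ Ss th 0, G 0 (t + 2 * Real.pi * Complex.I) = G 0 t + 1 := by
    intro t ht
    have h1 : t + 2 * Real.pi * Complex.I = (t + Real.pi * Complex.I) + Real.pi * Complex.I := by ring
    rw [h1, p0 _ (st_pi.2 ht), p0 t ht]
    ring
  induction n with
  | zero => intro t _; simp
  | succ n ih =>
    intro t ht
    have h1 : t + 2 * Real.pi * Complex.I * ((n + 1 : ℕ) : ℂ) =
        (t + 2 * Real.pi * Complex.I * (n : ℂ)) + 2 * Real.pi * Complex.I := by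
      push_cast
      ring
    rw [h1, h2 _ ((st_tr (c := 2 * Real.pi * Complex.I * (n : ℂ)) (by simp)).2 ht), ih t ht]
    push_cast
    ring

theorem no_per (_hG : GG Lf th r ψ G) (p0 : ∀ t ∈ Ss th 0, G 0 (t + Real.pi * Complex.I) = G 0 t + 1 / 2) {s : ℕ} {e : ℝ}
    {b : ℂ} (he : e = 1 ∨ e = -1) (hb : ∀ t ∈ Ss th s, G 0 (2 ^ s * t) = e * 2 ^ s * G s t + b) :
    ∀ t ∈ Ss th s, e * G s (t + 2 * Real.pi * Complex.I) = e * G s t + 1 := by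
  intro t ht
  have h1 : t + 2 * Real.pi * Complex.I ∈ Ss th s := (st_tr (c := 2 * Real.pi * Complex.I) (by simp)).2 ht
  have h2 := hb _ h1
  have h3 : 2 ^ s * (t + 2 * Real.pi * Complex.I) = 2 ^ s * t + 2 * Real.pi * Complex.I * ((2 ^ s : ℕ) : ℂ) := by
    push_cast
    ring
  rw [h3, g0_per p0 (2 ^ s) _ (ss_pow.1 ht), hb t ht] at h2
  have h4 : (2 : ℂ) ^ s ≠ 0 := pow_ne_zero s two_ne_zero
  apply mul_left_cancel₀ h4
  push_cast at h2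
  linear_combination -h2

/-- reduction to the normal form -/
theorem nrm (h : LS Q Lf) (hX : XS Q Lf th r φ F ω α) (hP : PS th φ F ω α ψ) (hG : GG Lf th r ψ G) :
    ∃ (Lf' : Set ℂ → (ℂ → ℂ) → (ℂ → ℂ) → Prop) (G' : ℕ → ℂ → ℂ), LS Q Lf' ∧ XS Q Lf' th r φ F ω α ∧ GG Lf' th r ψ G' ∧
      ∀ t ∈ Ss th 0, G' 0 (t + Real.pi * Complex.I) = G' 0 t + 1 / 2 := by
  obtain ⟨c, hc, -, h2⟩ := sc h hX hP hG
  refine ⟨_, _, ls_sc h hc, xs_sc hX hc, gg_sc hG hc, fun t ht => ?_⟩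
  show c⁻¹ * G 0 (t + Real.pi * Complex.I) = c⁻¹ * G 0 t + 1 / 2
  rw [h2 t ht]
  field_simp

end Pool.Agent.H66.GEO
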